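import Pool.Agent.Helper37.CP.Final
import Pool.Agent.Helper49.CP.FactB
import Pool.Agent.Helper49.CP.SP
import Pool.Agent.Helper49.CP.Corner

/-! Convex partitions of the square with minimum circularity: the value of the infimum, and the
infimum is not attained. -/

set_option autoImplicit false

namespace Pool.Agent.Results.MP_ca50fe_co.ConvexPartitions

open Pool.Agent.Helper37.CP

/-- `rhoStar`, the infimum of the costs (largest circularity of a piece) of all finite convex
partitions of the unit square, is `(1 + b) / √2`, where `b` is the unique number in `(0, 1]` with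
`(1 + b) / √2 = 3 / 4 + (b ^ 2 + (1 / b) ^ 2) / 4`; it is `1.28868446187...`; and no finite convex
partition attains it. -/
theorem result :
    (∃ b : ℝ, (0.8224 < b ∧ b < 0.8225 ∧ (1 + b) / √2 = 3 / 4 + (b ^ 2 + (1 / b) ^ 2) / 4) ∧
      (∀ b' : ℝ, 0 < b' → b' ≤ 1 →
        (1 + b') / √2 = 3 / 4 + (b' ^ 2 + (1 / b') ^ 2) / 4 → b' = b) ∧
      rhoStar = (1 + b) / √2) ∧
      (1.288684461869 < rhoStar ∧ rhoStar < 1.288684461871) ∧
      ∀ (n : ℕ) (P : Fin n → Set ℂ), IsPart sqr P → rhoStar < cost P := by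
  obtain ⟨b, h1, h2, h3, h4⟩ := final st_b st_sp2 st_fact st_corner
  obtain ⟨b0, hb0⟩ := st_b
  have l := hb0.lo
  have u := hb0.hi
  have hb : b0 = b := h2 b0 (by norm_num at l ⊢; linarith) (by norm_num at u ⊢; linarith) hb0.eq
  rw [hb] at l u
  obtain ⟨s1, s2⟩ := sqrt2_bounds
  have s0 : (0 : ℝ) < √2 := by positivity
  have hs : √2 * √2 = 2 := Real.mul_self_sqrt (by norm_num)
  have e : rhoStar = (1 + b) * √2 / 2 := by
    rw [h3, div_eq_div_iff s0.ne' (by norm_num)]
    linear_combination (-(1 + b)) * hs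
  refine ⟨⟨b, h1, h2, h3⟩, ⟨?_, ?_⟩, h4⟩
  · rw [e]
    have k1 : (1 + 0.822475043596) * 1.41421356237309 / 2 ≤ (1 + b) * √2 / 2 := by
      have := mul_le_mul (show (1 + 0.822475043596 : ℝ) ≤ 1 + b by linarith) s1.le (by norm_num)
        (by linarith)
      linarith
    have k2 : (1.288684461869 : ℝ) < (1 + 0.822475043596) * 1.41421356237309 / 2 := by norm_num
    linarith
  · rw [e]
    have k1 : (1 + b) * √2 / 2 ≤ (1 + 0.822475043597) * 1.41421356237310 / 2 := by
      have := mul_le_mul (show 1 + b ≤ (1 + 0.822475043597 : ℝ) by linarith) s2.le (by positivity)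
        (by norm_num)
      linarith
    have k2 : (1 + 0.822475043597) * 1.41421356237310 / 2 < (1.288684461871 : ℝ) := by norm_num
    linarith

end Pool.Agent.Results.MP_ca50fe_co.ConvexPartitions
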